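import Pool.Agent.H60MC.Deg

/-!
# Independence of the Chow–Künneth filtration and the generalized Bloch conjecture

Let `X` be a variety whose cohomology is spanned by the classes of algebraic cycles (for example a
complex surface with `p_g = q = 0`, or a smooth projective variety of Hodge–Tate type which satisfies
the Hodge conjecture). The generalized Bloch conjecture predicts that the cycle maps
`CH^i(X) → H^(2i)(X)` are injective (rational coefficients).

We prove that `X` has a Chow–Künneth decomposition, and that for each pair `(i, l)` the group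
`F^l CH^i(X)` is independent of the Chow–Künneth decomposition of `X` if and only if the cycle map
`CH^i(X) → H^(2i)(X)` is injective. The only exceptions are the trivial pairs: for `l > 2i` the group
`F^l CH^i(X)` is zero by definition, for `2i ≥ 2 dim X + l` it is `CH^i(X)` (`i = dim X` and `l = 0`,
or `i > dim X`).

So for a surface with `p_g = q = 0` the independence of `F^1 CH^2(X)` alone is equivalent to Bloch's
conjecture for `X`.

The proof: let `z_i ∈ CH^p(X)` and `y_i ∈ CH^(dim X - p)(X)` be dual families of cycles, such that the
classes of the `z_i` are a basis of `H^(2p)(X)`. The correspondences `ρ_p = ∑ y_i × z_i` are orthogonal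
idempotents, and `e = Δ - ∑ ρ_p` is an idempotent which acts as zero on the cohomology. It can be put
in any degree. More generally, for each Chow–Künneth decomposition `π` one can move the homologically
trivial idempotent `π_(2p) - π_(2p) ρ_p π_(2p)` to another degree.
-/

open Pool.Agent.H914 Pool.Agent.R903 Pool.Agent.H60MC

universe u v w

namespace Pool.Agent.Results.MP_10f4af_ag.AlgebraicCohomology

/-- **If `H^*(X)` is spanned by algebraic cycles, then `F^l CH^i(X)` is independent of the
Chow–Künneth decomposition if and only if `CH^i(X)` injects into the cohomology** (or the pair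
`(i, l)` is trivial). -/
theorem result {k : Type u} [Field k] {𝒱 : VarClass k} {C : ChowTheory.{u, v} 𝒱}
    (W : WeilTheory.{u, v, w} C) (X : 𝒱.Obj) (h : ∀ c ≤ 2 * X.dim, SpannedByCycles W X c) :
    W.HasCK X ∧ ∀ i l, W.Indep X i l ↔
      (2 * i < l ∨ 2 * X.dim + l ≤ 2 * i ∨ ∀ x ∈ C.gr X i, W.cl X x = 0 → x = 0) := by
  refine ⟨exists_ck h, fun i l => ⟨fun hI => ?_, ?_⟩⟩
  · by_cases h1 : 2 * i < l
    · exact Or.inl h1
    by_cases h2 : 2 * X.dim + l ≤ 2 * i
    · exact Or.inr (Or.inl h2)
    · exact Or.inr (Or.inr ((indep_iff h (by omega) (by omega)).1 hI))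
  · rintro (h1 | h2 | h3)
    · intro π π' hπ hπ'
      have key : ∀ ρ : ℕ → C.CH (X.prod X), W.IsCK X ρ → ∀ x, x ∈ C.ckFil ρ i l ↔
          x = 0 := by
        intro ρ hρ x
        rw [WeilTheory.mem_ckFil hρ]
        constructor
        · rintro ⟨_, hx⟩
          rw [← hρ.sum_act x]
          exact Finset.sum_eq_zero fun b _ => hx b (by omega)
        · rintro rfl
          exact ⟨Submodule.zero_mem _, fun b _ => map_zero _⟩
      ext x
      rw [key π hπ, key π' hπ']
    · intro π π' hπ hπ'
      have key : ∀ ρ : ℕ → C.CH (X.prod X), W.IsCK X ρ → ∀ x, x ∈ C.ckFil ρ i l ↔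
          x ∈ C.gr X i := by
        intro ρ hρ x
        rw [WeilTheory.mem_ckFil hρ]
        refine ⟨fun hx => hx.1, fun hx => ⟨hx, fun b hb => ?_⟩⟩
        rw [hρ.eq_zero (by omega), C.act_zero, LinearMap.zero_apply]
      ext x
      rw [key π hπ, key π' hπ']
    · exact indep_of_injective h3 l

end Pool.Agent.Results.MP_10f4af_ag.AlgebraicCohomology
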