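import Pool.Agent.H60MC.Summand

/-!
# Independence of the Chow–Künneth filtration in the degrees with algebraic cohomology

Suppose that `F^l CH^i(X)` is independent of the Chow–Künneth decomposition of `X`, for one `l` with
`0 ≤ l ≤ 2i` and `2i - l < 2 dim X` (for the other `l` the group is `0` or `CH^i(X)` by definition). Let
`c` be a number such that `H^c(X)` and `H^(2 dim X - c)(X)` are spanned by the classes of algebraic
cycles (for odd `c` this means that `H^c(X) = 0`). Then for all Chow–Künneth decompositions of `X`:

* `F^m CH^i(X) = F^(m+1) CH^i(X)` if `c = 2i - m` with `m ≥ 1`;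
* `F^1 CH^i(X)` is the kernel of `F^0 CH^i(X) → H^(2i)(X)` if `c = 2i`.

Moreover `π_c` kills `CH^i(X)` if `c ≠ 2i` (for `c > 2i` this is a part of the equality
`F^0 CH^i(X) = CH^i(X)`), and it kills the homologically trivial cycles if `c = 2i`.

These are cases of the conjectures of Bloch, Beilinson and Murre. For example, if `X` is a surface
with `p_g = 0`, then the independence of `F^1 CH^2(X)` implies that `F^2 CH^2(X) = F^3 CH^2(X)` for
all Chow–Künneth decompositions; for the decomposition of Murre the first group is the Albanese kernel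
and the second one is zero, so this is Bloch's conjecture for `X`.
-/

open Pool.Agent.H914 Pool.Agent.R903 Pool.Agent.H60MC

universe u v w

namespace Pool.Agent.Results.MP_10f4af_ag.AlgebraicDegrees

/-- **Independence of `F^l CH^i(X)` implies the conjectures of Bloch and Beilinson for the step of the
filtration on `CH^i(X)` which belongs to `H^c(X)`**, if `H^c(X)` and `H^(2 dim X - c)(X)` are spanned by
algebraic cycles. -/
theorem result {k : Type u} [Field k] {𝒱 : VarClass k} {C : ChowTheory.{u, v} 𝒱}
    (W : WeilTheory.{u, v, w} C) (X : 𝒱.Obj) (i l : ℕ) (hl : l ≤ 2 * i)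
    (hil : 2 * i < 2 * X.dim + l) (hI : W.Indep X i l) (c : ℕ) (h1 : SpannedByCycles W X c)
    (h2 : SpannedByCycles W X (2 * X.dim - c)) (π : ℕ → C.CH (X.prod X)) (hπ : W.IsCK X π) :
    KillsChow W X π c i ∧ TrivialStep W X π c i :=
  have key : KillsChow W X π c i := fun _ hx h0 => alg_degree' hl hil hI hπ h1 h2 hx h0
  ⟨key, key.trivialStep hπ⟩

end Pool.Agent.Results.MP_10f4af_ag.AlgebraicDegrees
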