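import Pool.Agent.H60MC.Summand

/-!
# Independence of the Chow–Künneth filtration and the Chow groups of `h^c(X)`

Let `π` be a Chow–Künneth decomposition of `X`, so that `h^c(X) = (X, π_c)`. We say that the motive
`(Y, q)` is detected by the cohomology if all its endomorphisms `q ∘ γ ∘ q` which act as zero on the
cohomology are zero; this holds for example for sums of Lefschetz motives, and (by a theorem of Weil)
for `h^1` of a curve or an abelian variety.

Suppose that `F^l CH^i(X)` is independent of the Chow–Künneth decomposition of `X`, for one `l` with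
`0 ≤ l ≤ 2i` and `2i - l < 2 dim X` (for the other `l` the group is `0` or `CH^i(X)` by definition).
Suppose that there are correspondences `α` from `X` to `Y` and `β` from `Y` to `X` (of opposite
degrees) such that `β ∘ q ∘ α` is the identity on `H^c(X)`. Then `π_c CH^i(X)` is a direct summand of
`q CH^j(Y)`, by correspondences `σ : h^c(X) → (Y, q)` and `τ : (Y, q) → h^c(X)`.

This is a case of the conjectures of Bloch and Beilinson. For example, if `H^c(X)` comes from `H^1` of
a curve, then `π_c CH^i(X) = 0` for all `i ≠ (c + 1) / 2`, and for `i = (c + 1) / 2` it is a direct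
summand of the group of points of the Jacobian (tensored with `ℚ`).
-/

open Pool.Agent.H914 Pool.Agent.R903 Pool.Agent.H60MC

universe u v w

namespace Pool.Agent.Results.MP_10f4af_ag.DetectedSummands

/-- **Independence of `F^l CH^i(X)` implies that `π_c CH^i(X)` is as predicted by `H^c(X)`**, if
`H^c(X)` comes from a motive whose endomorphisms are detected by the cohomology. -/
theorem result {k : Type u} [Field k] {𝒱 : VarClass k} {C : ChowTheory.{u, v} 𝒱}
    (W : WeilTheory.{u, v, w} C) (X : 𝒱.Obj) (i l : ℕ) (hl : l ≤ 2 * i)
    (hil : 2 * i < 2 * X.dim + l) (hI : W.Indep X i l) (π : ℕ → C.CH (X.prod X))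
    (hπ : W.IsCK X π) (c : ℕ) (Y : 𝒱.Obj) (q : C.CH (Y.prod Y)) (hq : EndDetected W Y q) (m n : ℕ)
    (hmn : m + n = X.dim + Y.dim) (hc : CohSummand W X c q m n) : ChowSummand C (π c) i q m n :=
  summand hl hil hI hπ hq hmn hc

end Pool.Agent.Results.MP_10f4af_ag.DetectedSummands
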