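import Pool.Agent.H23CK.Ind

/-!
# If the Chow-Künneth filtrations agree up to countable or representable groups then they agree

For a smooth projective variety `X` with a Chow-Künneth decomposition `π` let
`F^k CH^i(X) = (π_(2i-k) + ... + π_0) CH^i(X)`. Murre conjectured that this space does not depend on
the decomposition. The **discrepancy** `disc X i k` is the space generated by the components
`x - (π'_(2i-k) + ... + π'_0) x` of the elements `x` of `F^k CH^i(X)` formed with `π`, for all pairs
`π, π'` of decompositions of `X`: it is `0` if and only if `F^k CH^i(X)` is the same for all
decompositions. We show:

For elliptic curves `E_1, ..., E_m` and a correspondence `f` from `E_1 × ... × E_m` to `X` consider the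
family of the classes `f_*((p_1 - q_1) × ... × (p_m - q_m))` on `X`, where `p_i, q_i` are points of
`E_i`. We say that a group of classes is *thin of order `m`* if all families of this kind which lie in it
are countable sets. For instance, a countable group is thin of order 1, and a group which is
representable (which has a homomorphism with countable kernel to a complex torus `A` such that
algebraic families of cycles give holomorphic maps to `A`) is thin of order 2, since a holomorphic map
from `E_1 × E_2` to a complex torus is a sum of maps from `E_1` and from `E_2`.

1. (One variety.) If for some `m ≥ 1` the discrepancies of `X × E_1 × ... × E_m` in the codimension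
   `i + m` and the level `k + m` are thin of order `m` (for instance countable, or representable if
   `m = 2`), for all elliptic curves `E_i`, then `F^k CH^i(X)` is independent of the decomposition.
2. (All varieties.) For each integer `r` the following are equivalent:
   (a) the spaces `F^k CH^i(X)` are independent of the decomposition for all `X` and all `i`, `k` with
   `i - k ≤ r`;
   (b) for infinitely many `i` there is `m ≥ 1` such that the discrepancies `disc X (i + m) (i + m - r)`
   are thin of order `m` for all `X`;
   (c) for infinitely many `i` the discrepancies `disc X i (i - r)` are countable for all `X`;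
   (d) for all `i` and `X` no class `≠ 0` in `disc X i (i - r)` comes from the points of one fixed
   elliptic curve (or of each of finitely many given elliptic curves): that is, is a sum of classes
   `f_* (p - q)`. So one has to check only very special algebraically trivial cycles.
3. The question, for all `X`, `i`, `k`, has a positive answer if and only if (b) holds for infinitely
   many `r > 0`. In other words: either the filtration is independent in all cases or, for all large
   `r` and in all large codimensions, the groups generated by the differences of the filtrations
   are infinite-dimensional in the sense of Mumford, for some varieties.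

**Setting.** `C` is the category of the smooth projective complex varieties with the Chow groups of
`X × Y` with rational coefficients as morphisms (all codimensions), `R` is the Betti cohomology (with
its grading mod 2), `G.deg` are the degrees of the correspondences, `G.coh` are the groups `H^i(X)`, `dim` is
the dimension. (The part `ajk` of `G` is not used.) `Kunneth` says: degrees and dimensions are additive,
and the Künneth formula. The varieties are not supposed to have Chow-Künneth decompositions: for a variety
without a decomposition the condition of independence is empty, and the discrepancy is `0`.

`D l` are the elliptic curves. `Curve.Laws` contains the trace formula (the self-intersection of the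
diagonal is `2 - 2g`), `g > 0`, and the theorem of Bloch and Srinivas: a correspondence `f` from `E` to
`Y` with `f_* p = 0` for all points `p` is a combination of cycles `y × p`. `CurveCK`: the decomposition
`π_0 = o × E`, `π_2 = E × o`, `π_1 = 1 - π_0 - π_2`. `Baire`: if the classes `f_* p` form a countable set
then they are all equal (the points `p` with a given class `f_* p` form a countable union of closed
subsets of `E`). `Separated`: the class `x` vanishes if it is a sum of classes `f_* (p - q)` for each elliptic
curve `E`. Proof of this last property: let `X` and `x` be defined over the field `k`, finitely
generated over `ℚ`. Choose `E` with an invariant `j` which is transcendental over `k`. Specialise the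
curve `E` and the correspondences to a point where `j = ∞`: then `E` becomes a cycle of rational
curves, on which any two points are rationally equivalent, so the classes `f_* p - f_* q` become `0`,
whereas `x` does not change.

**Proof.** Let `x ∈ disc X i k`. The product of Chow-Künneth decompositions of `X` and `E` is a
decomposition of `X × E`. It follows that for points `p`, `q` of `E` the class `x × (p - q)` is in
the discrepancy of `X × E` in codimension `i + 1` and level `k + 1`, and `x × o` is in the discrepancy
in codimension `i + 1` and level `k`. If these are countable then `x × p = x × q` for all `p`, `q` by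
`Baire`. (If the groups are only thin of order `m`, one applies this to the products of `x` with
`m - 1` differences of points.) Hence the correspondence `x × Δ_E` from `E` to `X × E` minus the constant one is supported
on finitely many fibres. Take the trace over `E`: it is `-2g x`, and on the other side one finds a sum
of classes `f_* (p - q)`. So `x` comes from `E`, for each `E`, and `x = 0` by `Separated`.

Author: helper23.
-/

set_option autoImplicit false

open CategoryTheory MonoidalCategory Module Filter
open Pool.Agent.Y112.SR Pool.Agent.Y112.KD Pool.Agent.N64.AF Pool.Agent.H23NC Pool.Agent.H23OB
open Pool.Agent.H23CT Pool.Agent.H23CK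

namespace Pool.Agent.Results.MP_10f4af_ag.ThinDiscrepancy

universe v u w t

/-- Independence of the Chow-Künneth filtrations up to countable, or thin, groups implies
independence. -/
theorem result {C : Type u} [Category.{v} C] [Preadditive C] [MonoidalCategory C]
    [MonoidalPreadditive C] [SymmetricCategory C] [Linear ℚ C] [MonoidalLinear ℚ C]
    {K : Type w} [Field K] [Algebra ℚ K] (R : SuperRealisation C K) (G : Cycles R) (dim : C → ℕ)
    (hG : Kunneth G dim) {ι : Type t} (D : ι → Curve C) (hD : ∀ l, (D l).Laws G)
    (hK : ∀ l, CurveCK G dim (D l)) (hB : ∀ l, (D l).Baire) (hS : Separated D) :
    (∀ (X : C) (i m : ℕ) (k : ℤ), (∀ L : List ι, L.length = m + 1 → ∀ f : pw D L ⟶ ext D X L,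
      (∀ z ∈ diffs D L, z ≫ f ∈ disc G dim (ext D X L) (i + (m + 1)) (k + (m + 1))) →
        {y | ∃ z ∈ diffs D L, y = z ≫ f}.Countable) → Indep G dim X i k) ∧
    (∀ r : ℤ,
      ((∀ (X : C) (i : ℕ) (k : ℤ), i - k ≤ r → Indep G dim X i k) ↔
        ∃ᶠ i : ℕ in atTop, ∃ m, Thin D (InDisc G dim r) (m + 1) (i + (m + 1))) ∧
      ((∀ (X : C) (i : ℕ) (k : ℤ), i - k ≤ r → Indep G dim X i k) ↔
        ∃ᶠ i : ℕ in atTop, ∀ X : C, (disc G dim X i (i - r) : Set (𝟙_ C ⟶ X)).Countable) ∧
      ∀ s : Finset ι, (∀ (X : C) (i : ℕ) (k : ℤ), i - k ≤ r → Indep G dim X i k) ↔
        ∀ (X : C) (i : ℕ), ∀ x ∈ disc G dim X i (i - r), (∀ l ∈ s, x ∈ (D l).img X) → x = 0) ∧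
    ((∀ (X : C) (i : ℕ) (k : ℤ), Indep G dim X i k) ↔
      ∃ᶠ r : ℤ in atTop, ∃ᶠ i : ℕ in atTop,
        ∃ m, Thin D (InDisc G dim r) (m + 1) (i + (m + 1))) :=
  ⟨indep_of_ext hG hD hK hB hS, fun r => ⟨indep_iff_thin hG hD hK hB hS r,
    indep_iff_countable hG hD hK hB hS r, indep_iff_imgs hG hD hK hS r⟩,
    indep_all_iff hG hD hK hB hS⟩

end Pool.Agent.Results.MP_10f4af_ag.ThinDiscrepancy
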